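import Mathlib
import Pool.Agent.Lib.MP_4c03a7_co.Defs
import Pool.Agent.Lib.MP_4c03a7_co.Bounds

set_option autoImplicit false

open Finset SimpleGraph
open Pool.Agent.Lib.MP_4c03a7_co

namespace Pool.Agent.Results.MP_4c03a7_co.Full

/-- Turan numbers of `k` vertex-disjoint `p`-cliques in both ranges of the conjecture. -/
theorem result (p k n : ℕ) (hp : 3 ≤ p) (hk : 5 ≤ k)
    (hpk : 0 ≤ ((k : ℤ) - 1) * p - k ^ 2 + 3 * k - 3) :
    ((k : ℤ) * p + k ^ 2 - 3 * k + 1 ≤ n → (n : ℤ) ≤ (2 * k - 1) * p - 2 →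
      (extremalNumber n (disjCliques k p) : ℤ) =
        (n.choose 2 : ℤ) - (2 * k - 1) * (n - k * p + 1)) ∧
    ((2 * (k : ℤ) - 1) * p - 1 ≤ n →
      extremalNumber n (disjCliques k p) =
        (k - 1).choose 2 + (k - 1) * (n - k + 1) +
          (turanGraph (n - k + 1) (p - 1)).edgeFinset.card) := by
  obtain ⟨k, rfl⟩ : ∃ k', k = k' + 2 := ⟨k - 2, by omega⟩
  obtain ⟨q, rfl⟩ : ∃ q, p = q + 1 := ⟨p - 1, by omega⟩
  have hk' : (3 : ℤ) ≤ k := by omega
  have hq' : (2 : ℤ) ≤ q := by omega
  have hc := two_mul_choose_two n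
  constructor
  · intro h1 h2
    push_cast at h1 h2 hpk ⊢
    -- s = n - kp + 1 = (k-1) c + y
    obtain ⟨s, hs⟩ : ∃ s : ℕ, (s : ℤ) = n - (k + 2) * (q + 1) + 1 :=
      ⟨((n : ℤ) - (k + 2) * (q + 1) + 1).toNat, Int.toNat_of_nonneg (by nlinarith)⟩
    have hdm := Nat.div_add_mod s (k + 1)
    have hy := Nat.mod_lt s (show 0 < k + 1 by omega)
    set c := s / (k + 1)
    set y := s % (k + 1)
    have hdm' : ((k : ℤ) + 1) * c + y = s := by exact_mod_cast hdm
    have hy' : (y : ℤ) ≤ k := by omega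
    have hy0 : (0 : ℤ) ≤ y := Int.natCast_nonneg y
    have hck : (k : ℤ) ≤ c := by
      by_contra hcon
      have : (c : ℤ) + 1 ≤ k := by omega
      nlinarith
    have hcq : (c : ℤ) ≤ q := by
      by_contra hcon
      have : (q : ℤ) + 1 ≤ c := by omega
      nlinarith
    obtain ⟨x, hx⟩ : ∃ x : ℕ, c = x + y := ⟨c - y, by omega⟩
    obtain ⟨w, hw⟩ : ∃ w : ℕ, q = c + w := ⟨q - c, by omega⟩
    have hx' : (c : ℤ) = x + y := by exact_mod_cast hx
    have hw' : (q : ℤ) = c + w := by exact_mod_cast hw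
    have hlow := lower' x y ((k + 2) * w + k + 1) (2 * k + 3) (k + 2) (q + 1) n
      (by zify; nlinarith) (by zify; nlinarith)
    push_cast at hlow
    have hn : (n : ℤ) = (k + 2) * (q + 1) - 1 + ((k + 1) * (x + y) + y) := by
      rw [← hx']; linarith
    rcases upper n (k + 2) (q + 1) (2 * k + 3) (by omega) (by omega) with hup | hup
    · push_cast at hup
      nlinarith
    · exfalso
      rw [hup] at hlow
      have h3 : ((k : ℤ) + 1) * (x + y) + y ≤ n - (2 * k + 3) := by nlinarith
      have h4 : (2 * (k : ℤ) + 3) * (n - (2 * k + 3)) * 2 < n * (n - 1) := by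
        have h5 : 2 * (2 * (k : ℤ) + 3) + 1 < n := by nlinarith
        nlinarith
      push_cast at hlow
      nlinarith
  · intro h1
    push_cast at h1 hpk
    obtain ⟨m, rfl⟩ : ∃ m, n = m + k + 1 := ⟨n - k - 1, by
      have : (k : ℤ) + 1 ≤ n := by nlinarith
      omega⟩
    have e1 : m + k + 1 - (k + 2) + 1 = m := by
      have : (1 : ℤ) ≤ m := by push_cast at h1; nlinarith
      omega
    have e2 : k + 2 - 1 = k + 1 := rfl
    have e3 : (turanGraph (m + k + 1 - (k + 2) + 1) (q + 1 - 1)).edgeFinset.card =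
        (turanGraph m q).edgeFinset.card := by
      rw [e1]; rfl
    rw [e3, e1, e2]
    have hdm := Nat.div_add_mod m q
    have hj := Nat.mod_lt m (show 0 < q by omega)
    set r := m / q
    set j := m % q
    have hdm' : (q : ℤ) * r + j = m := by exact_mod_cast hdm
    have hj' : (j : ℤ) + 1 ≤ q := by omega
    have hj0 : (0 : ℤ) ≤ j := Int.natCast_nonneg j
    have hr : 2 * (k : ℤ) + 3 ≤ r := by
      by_contra hcon
      have : (r : ℤ) + 1 ≤ 2 * k + 3 := by omega
      push_cast at h1
      nlinarith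
    have ht := turan_count q j (by omega) r
    have e4 : (turanGraph (r * q + j) q).edgeFinset.card = (turanGraph m q).edgeFinset.card := by
      have : r * q + j = m := by rw [mul_comm]; exact hdm
      rw [this]
    rw [e4] at ht
    obtain ⟨x, hx⟩ : ∃ x : ℕ, q = x + j := ⟨q - j, by omega⟩
    have hx' : (q : ℤ) = x + j := by exact_mod_cast hx
    have hlow := lower' x j (k + 1) r (k + 2) (q + 1) (m + k + 1)
      (by zify; nlinarith) (by zify; nlinarith)
    have hc2 := two_mul_choose_two (k + 1)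
    have hm : (m : ℤ) = r * (x + j) + j := by rw [← hx']; linarith
    zify
    push_cast at hlow hc2
    rcases upper (m + k + 1) (k + 2) (q + 1) r (by omega) (by omega) with hup | hup
    · push_cast at hup
      rw [hx'] at ht hup
      rw [hm] at hup hlow ⊢
      nlinarith
    · exfalso
      rw [hup] at hlow
      have h6 : (0 : ℤ) ≤ (turanGraph m q).edgeFinset.card := Int.natCast_nonneg _
      rw [hx'] at ht
      rw [hm] at hlow
      have hx0 : (0 : ℤ) ≤ x := Int.natCast_nonneg x
      have h7 : (0 : ℤ) < r * (x + j) + j := by nlinarith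
      push_cast at hlow
      nlinarith

end Pool.Agent.Results.MP_4c03a7_co.Full
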