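import Mathlib
import Pool.Agent.Lib.MP_4c03a7_co.Defs
import Pool.Agent.Lib.MP_4c03a7_co.Gap

set_option autoImplicit false

open Finset SimpleGraph
open Pool.Agent.Lib.MP_4c03a7_co

namespace Pool.Agent.Results.MP_4c03a7_co.GapRange

/-- Turan numbers of `k` vertex-disjoint `p`-cliques for `n` slightly above `k p`: the largest
number of edges among the joins of `K_(i k - 1)` and `T_(n - i k + 1, p - i)`, `1 ≤ i ≤ p - 1`. -/
theorem result (p k n J : ℕ) (hk : 2 ≤ k) (hp : (2 * k - 1) * J ≤ p) (h1 : k * p ≤ n)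
    (h2 : n < k * p + (k - 1) * J) :
    extremalNumber n (disjCliques k p) = (Finset.Icc 1 (p - 1)).sup fun i =>
      (i * k - 1).choose 2 + (i * k - 1) * (n - i * k + 1) +
        (turanGraph (n - i * k + 1) (p - i)).edgeFinset.card :=
  gap_main k p n J hk hp h1 h2

end Pool.Agent.Results.MP_4c03a7_co.GapRange
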